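import Pool.Agent.Helper98.EY.StmtsB

/-!
The bucket brigade, one macro step in one half: deterministic part.
-/

set_option autoImplicit false

namespace Pool.Agent.Helper98.EX

open Finset

section basics

variable {N : ℕ}

theorem bba_split (η : Cfg N) {a b c : ℕ} (h1 : a ≤ b) (h2 : b ≤ c) :
    cnt η a c = cnt η a b + cnt η b c := by
  unfold cnt
  exact (Finset.sum_Ico_consecutive _ h1 h2).symm

theorem bba_empty (η : Cfg N) {a b : ℕ} (h : ∀ x, a ≤ x → x < b → occ η x = false) :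
    cnt η a b = 0 := by
  unfold cnt
  refine Finset.sum_eq_zero ?_
  intro x hx
  rw [Finset.mem_Ico] at hx
  rw [h x hx.1 hx.2]
  simp

theorem bba_full (η : Cfg N) {a b : ℕ} (h : ∀ x, a ≤ x → x < b → occ η x = true) :
    cnt η a b = b - a := by
  unfold cnt
  have : ∀ x ∈ Finset.Ico a b, (if occ η x = true then 1 else 0) = 1 := by
    intro x hx
    rw [Finset.mem_Ico] at hx
    rw [h x hx.1 hx.2]
    simp
  rw [Finset.sum_congr rfl this]
  simp

theorem bba_congr (η ξ : Cfg N) {a b : ℕ} (h : ∀ x, a ≤ x → x < b → occ ξ x = occ η x) :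
    cnt ξ a b = cnt η a b := by
  unfold cnt
  refine Finset.sum_congr rfl ?_
  intro x hx
  rw [Finset.mem_Ico] at hx
  rw [h x hx.1 hx.2]

theorem bba_le (η : Cfg N) (a b : ℕ) : cnt η a b ≤ b - a := by
  unfold cnt
  calc ∑ i ∈ Finset.Ico a b, (if occ η i = true then 1 else 0) ≤ ∑ i ∈ Finset.Ico a b, 1 := by
        refine Finset.sum_le_sum ?_
        intro x _
        split <;> omega
    _ = b - a := by simp

theorem bba_one (η : Cfg N) (a : ℕ) : cnt η a (a + 1) = if occ η a = true then 1 else 0 := by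
  unfold cnt
  rw [Finset.sum_Ico_succ_top (Nat.le_refl a), Finset.Ico_self, Finset.sum_empty, zero_add]

/-- a full count means that all sites are occupied -/
theorem bba_allfull (η : Cfg N) {a b x : ℕ} (h : cnt η a b = b - a) (h1 : a ≤ x) (h2 : x < b) :
    occ η x = true := by
  by_contra hc
  have e1 := bba_split η h1 (le_of_lt h2)
  have e2 := bba_split η (show x ≤ x + 1 by omega) (show x + 1 ≤ b by omega)
  have e3 := bba_one η x
  rw [if_neg hc] at e3
  have e4 := bba_le η a x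
  have e5 := bba_le η (x + 1) b
  omega

end basics

section facts

variable (L : BD)

theorem bba_mono (h : L.Valid) : ∀ k u, u + k ≤ L.V → L.e u ≤ L.e (u + k) := by
  intro k
  induction k with
  | zero => intro u _; exact le_refl _
  | succ k ih =>
    intro u hu
    have h1 := ih u (by omega)
    have h2 := h.cell1 (u + k + 1) (by omega) (by omega)
    have h3 := h.cell2 (u + k + 1) (by omega) (by omega)
    have : u + k + 1 - 1 = u + k := by omega
    rw [this] at h2
    have : u + (k + 1) = u + k + 1 := by omega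
    rw [this]
    omega

theorem bba_F0 (h : L.Valid) (u u' : ℕ) (h1 : u ≤ u') (h2 : u' ≤ L.V) : L.e u ≤ L.e u' := by
  obtain ⟨k, rfl⟩ := Nat.exists_eq_add_of_le h1
  exact bba_mono L h k u h2

theorem bba_F1 (h : L.Valid) (u u' : ℕ) (h1 : u < u') (h2 : u' ≤ L.V) :
    L.e u + 4 * L.w ≤ L.g u' := by
  have e1 := bba_F0 L h u (u' - 1) (by omega) (by omega)
  have e2 := h.cell1 u' (by omega) h2
  omega

theorem bba_F3 (h : L.Valid) (u u' : ℕ) (h0 : 1 ≤ u) (h1 : u ≤ u') (h2 : u' ≤ L.V) :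
    L.g u + 5 * L.w ≤ L.e u' := by
  have e1 := bba_F0 L h u u' h1 h2
  have e2 := h.cell2 u h0 (by omega)
  omega

theorem bba_F4 (h : L.Valid) (u : ℕ) (h2 : u ≤ L.V) : L.A ≤ L.e u ∧ L.e u + 4 * L.w ≤ L.x0 := by
  have e1 := bba_F0 L h 0 u (by omega) h2
  have e2 := bba_F0 L h u L.V h2 (le_refl _)
  have e3 := h.e0
  have e4 := h.last
  omega

theorem bba_F5 (h : L.Valid) (u u' : ℕ) (h0 : 1 ≤ u) (h1 : u < u') (h2 : u' ≤ L.V) :
    L.g u + 9 * L.w ≤ L.g u' := by
  have e1 := bba_F3 L h u (u' - 1) h0 (by omega) (by omega)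
  have e2 := h.cell1 u' (by omega) h2
  omega

theorem bba_G1 (v : ℕ) (h : v ≤ L.V) : L.G v = L.g v := by
  unfold BD.G
  rw [if_pos h]

theorem bba_G2 (v : ℕ) (h : ¬ v ≤ L.V) : L.G v = L.x0 := by
  unfold BD.G
  rw [if_neg h]

/-- distance from the end of a cell to the next landing spot -/
theorem bba_G3 (h : L.Valid) (u : ℕ) (h2 : u ≤ L.V) : L.e u + 4 * L.w ≤ L.G (u + 1) := by
  by_cases h3 : u + 1 ≤ L.V
  · rw [bba_G1 L _ h3]
    exact bba_F1 L h u (u + 1) (by omega) h3
  · rw [bba_G2 L _ h3]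
    exact (bba_F4 L h u h2).2

theorem bba_G4 (h : L.Valid) (u : ℕ) (h1 : 1 ≤ u) : L.G u ≤ L.x0 := by
  by_cases h3 : u ≤ L.V
  · rw [bba_G1 L _ h3]
    have e1 := bba_F3 L h u u h1 (le_refl _) h3
    have e2 := bba_F4 L h u h3
    omega
  · rw [bba_G2 L _ h3]

theorem bba_G5 (h : L.Valid) (u u' : ℕ) (h1 : 1 ≤ u) (h2 : u ≤ u') (h3 : u' ≤ L.V) :
    L.G u + 5 * L.w ≤ L.e u' := by
  rw [bba_G1 L u (by omega)]
  exact bba_F3 L h u u' h1 h2 h3

end facts

section windows

variable (L : BD) (v p : ℕ)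

theorem bba_memWA (q : ℕ × ℕ) : q ∈ L.WA v p ↔
    (p - 1 + 4 * L.w < L.G v ∧ q = (p - 1, L.G v - 2 * L.w)) ∨
      ∃ u, v ≤ u ∧ u ≤ L.V ∧ q = (L.e u - 1, L.G (u + 1) - 2 * L.w) := by
  unfold BD.WA
  rw [Finset.mem_union, Finset.mem_image]
  constructor
  · rintro (h | ⟨u, hu, rfl⟩)
    · left
      split_ifs at h with hc
      · exact ⟨hc, Finset.mem_singleton.mp h⟩
      · exact absurd h (Finset.notMem_empty _)
    · right
      rw [Finset.mem_Icc] at hu
      exact ⟨u, hu.1, hu.2, rfl⟩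
  · rintro (⟨hc, rfl⟩ | ⟨u, h1, h2, rfl⟩)
    · left
      rw [if_pos hc]
      exact Finset.mem_singleton_self _
    · right
      exact ⟨u, Finset.mem_Icc.mpr ⟨h1, h2⟩, rfl⟩

theorem bba_memWB (q : ℕ × ℕ) : q ∈ L.WB v ↔
    ∃ u, v ≤ u ∧ u ≤ L.V ∧ q = (L.g u + 2 * L.w, L.e u) := by
  unfold BD.WB
  rw [Finset.mem_image]
  constructor
  · rintro ⟨u, hu, rfl⟩
    rw [Finset.mem_Icc] at hu
    exact ⟨u, hu.1, hu.2, rfl⟩
  · rintro ⟨u, h1, h2, rfl⟩
    exact ⟨u, Finset.mem_Icc.mpr ⟨h1, h2⟩, rfl⟩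

theorem bba_memWC (q : ℕ × ℕ) : q ∈ L.WC v p ↔
    (v ≤ L.V ∧ q = (max (p - 1) (L.g v - 4 * L.w), L.g v + 4 * L.w)) ∨
      ∃ u, v < u ∧ u ≤ L.V ∧ q = (L.g u - 4 * L.w, L.g u + 4 * L.w) := by
  unfold BD.WC
  rw [Finset.mem_union, Finset.mem_image]
  constructor
  · rintro (h | ⟨u, hu, rfl⟩)
    · left
      split_ifs at h with hc
      · exact ⟨hc, Finset.mem_singleton.mp h⟩
      · exact absurd h (Finset.notMem_empty _)
    · right
      rw [Finset.mem_Ioc] at hu
      exact ⟨u, hu.1, hu.2, rfl⟩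
  · rintro (⟨hc, rfl⟩ | ⟨u, h1, h2, rfl⟩)
    · left
      rw [if_pos hc]
      exact Finset.mem_singleton_self _
    · right
      exact ⟨u, Finset.mem_Ioc.mpr ⟨h1, h2⟩, rfl⟩

variable {L v p}

theorem bba_c1 (h : L.Valid) (hl : L.Leg v p) (hp : L.e (v - 1) < p) :
    Disj (L.WA v p) L.A (L.x0 - 2 * L.w) := by
  obtain ⟨v1, v2, v3, v4⟩ := hl
  have hw := h.w1
  have hA := bba_F4 L h (v - 1) (by omega)
  have key : ∀ u u', v ≤ u → u < u' → u' ≤ L.V → L.G (u + 1) + 5 * L.w ≤ L.e u' := by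
    intro u u' a b c
    exact bba_G5 L h (u + 1) u' (by omega) (by omega) c
  have key0 : ∀ u, v ≤ u → u ≤ L.V → L.G v + 5 * L.w ≤ L.e u := by
    intro u a b
    exact bba_G5 L h v u v1 a b
  refine ⟨?_, ?_⟩
  · intro q hq
    rw [bba_memWA] at hq
    rcases hq with ⟨hc, rfl⟩ | ⟨u, h1, h2, rfl⟩
    · have := bba_G4 L h v v1
      refine ⟨?_, ?_, ?_⟩ <;> simp only <;> omega
    · have e1 := bba_G4 L h (u + 1) (by omega)
      have e2 := bba_G3 L h u h2
      have e3 := bba_F4 L h u h2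
      have e4 := bba_F3 L h u u (by omega) (le_refl _) h2
      have e5 := bba_F1 L h 0 u (by omega) h2
      have e6 := h.e0
      refine ⟨?_, ?_, ?_⟩ <;> simp only <;> omega
  · intro q hq q' hq' hne
    rw [bba_memWA] at hq hq'
    rcases hq with ⟨hc, rfl⟩ | ⟨u, h1, h2, rfl⟩
    · rcases hq' with ⟨hc', rfl⟩ | ⟨u', h1', h2', rfl⟩
      · exact absurd rfl hne
      · have := key0 u' h1' h2'
        left; simp only; omega
    · rcases hq' with ⟨hc', rfl⟩ | ⟨u', h1', h2', rfl⟩
      · have := key0 u h1 h2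
        right; simp only; omega
      · rcases lt_trichotomy u u' with hlt | heq | hgt
        · have := key u u' h1 hlt h2'
          left; simp only; omega
        · subst heq; exact absurd rfl hne
        · have := key u' u h1' hgt h2
          right; simp only; omega

theorem bba_c2 (h : L.Valid) (hl : L.Leg v p) :
    Disj (L.WB v) L.A (L.x0 - 4 * L.w) := by
  obtain ⟨v1, v2, v3, v4⟩ := hl
  have hw := h.w1
  have key : ∀ u u', v ≤ u → u < u' → u' ≤ L.V → L.e u + 4 * L.w ≤ L.g u' := by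
    intro u u' a b c
    exact bba_F1 L h u u' b c
  refine ⟨?_, ?_⟩
  · intro q hq
    rw [bba_memWB] at hq
    obtain ⟨u, h1, h2, rfl⟩ := hq
    have e3 := bba_F4 L h u h2
    have e4 := bba_F3 L h u u (by omega) (le_refl _) h2
    have e5 := bba_F1 L h 0 u (by omega) h2
    have e6 := h.e0
    refine ⟨?_, ?_, ?_⟩ <;> simp only <;> omega
  · intro q hq q' hq' hne
    rw [bba_memWB] at hq hq'
    obtain ⟨u, h1, h2, rfl⟩ := hq
    obtain ⟨u', h1', h2', rfl⟩ := hq'
    rcases lt_trichotomy u u' with hlt | heq | hgt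
    · have := key u u' h1 hlt h2'
      left; simp only; omega
    · subst heq; exact absurd rfl hne
    · have := key u' u h1' hgt h2
      right; simp only; omega

theorem bba_c3 (h : L.Valid) (hl : L.Leg v p) (hp : L.e (v - 1) < p) :
    Disj (L.WC v p) L.A (L.x0 - 4 * L.w) := by
  obtain ⟨v1, v2, v3, v4⟩ := hl
  have hw := h.w1
  have hA := bba_F4 L h (v - 1) (by omega)
  have key : ∀ u u', v ≤ u → u < u' → u' ≤ L.V → L.g u + 9 * L.w ≤ L.g u' := by
    intro u u' a b c
    exact bba_F5 L h u u' (by omega) b c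
  refine ⟨?_, ?_⟩
  · intro q hq
    rw [bba_memWC] at hq
    rcases hq with ⟨hc, rfl⟩ | ⟨u, h1, h2, rfl⟩
    · have e3 := bba_F4 L h v hc
      have e4 := bba_F3 L h v v v1 (le_refl _) hc
      rw [bba_G1 L v hc] at v4
      refine ⟨?_, ?_, ?_⟩ <;> simp only <;> omega
    · have e3 := bba_F4 L h u h2
      have e4 := bba_F3 L h u u (by omega) (le_refl _) h2
      have e5 := bba_F1 L h 0 u (by omega) h2
      have e6 := h.e0
      refine ⟨?_, ?_, ?_⟩ <;> simp only <;> omega
  · intro q hq q' hq' hne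
    rw [bba_memWC] at hq hq'
    rcases hq with ⟨hc, rfl⟩ | ⟨u, h1, h2, rfl⟩
    · rcases hq' with ⟨hc', rfl⟩ | ⟨u', h1', h2', rfl⟩
      · exact absurd rfl hne
      · have := key v u' (le_refl _) h1' h2'
        left; simp only; omega
    · rcases hq' with ⟨hc', rfl⟩ | ⟨u', h1', h2', rfl⟩
      · have := key v u (le_refl _) h1 h2
        right; simp only; omega
      · rcases lt_trichotomy u u' with hlt | heq | hgt
        · have := key u u' (by omega) hlt h2'
          left; simp only; omega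
        · subst heq; exact absurd rfl hne
        · have := key u' u (by omega) hgt h2
          right; simp only; omega

theorem bba_c4 (h : L.Valid) (hl : L.Leg v p) (hp : L.e (v - 1) < p) :
    ∀ q ∈ L.WA v p, ∃ u, 1 ≤ u ∧ u ≤ L.V + 1 ∧ L.e (u - 1) ≤ q.1 + 1 ∧ L.A ≤ q.1 ∧
    q.1 + 4 * L.w < L.G u ∧ q.2 = L.G u - 2 * L.w := by
  obtain ⟨v1, v2, v3, v4⟩ := hl
  have hw := h.w1
  have hA := bba_F4 L h (v - 1) (by omega)
  intro q hq
  rw [bba_memWA] at hq
  rcases hq with ⟨hc, rfl⟩ | ⟨u, h1, h2, rfl⟩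
  · refine ⟨v, v1, v2, ?_, ?_, ?_, rfl⟩ <;> simp only <;> omega
  · have e2 := bba_G3 L h u h2
    have e3 := bba_F4 L h u h2
    have e4 := bba_F3 L h u u (by omega) (le_refl _) h2
    have e5 := bba_F1 L h 0 u (by omega) h2
    have e6 := h.e0
    refine ⟨u + 1, by omega, by omega, ?_, ?_, ?_, rfl⟩ <;>
      simp only [Nat.add_sub_cancel] <;> omega

theorem bba_c5 (hl : L.Leg v p) :
    ∀ q ∈ L.WB v, ∃ u, 1 ≤ u ∧ u ≤ L.V ∧ q.1 = L.g u + 2 * L.w ∧ q.2 = L.e u := by
  obtain ⟨v1, v2, v3, v4⟩ := hl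
  intro q hq
  rw [bba_memWB] at hq
  obtain ⟨u, h1, h2, rfl⟩ := hq
  exact ⟨u, by omega, h2, rfl, rfl⟩

theorem bba_c6 (h : L.Valid) (hl : L.Leg v p) (hp : L.e (v - 1) < p) :
    ∀ q ∈ L.WC v p, ∃ u, 1 ≤ u ∧ u ≤ L.V ∧ L.g u ≤ q.1 + 4 * L.w ∧ q.1 < L.g u ∧
    q.2 = L.g u + 4 * L.w := by
  obtain ⟨v1, v2, v3, v4⟩ := hl
  have hw := h.w1
  intro q hq
  rw [bba_memWC] at hq
  rcases hq with ⟨hc, rfl⟩ | ⟨u, h1, h2, rfl⟩
  · rw [bba_G1 L v hc] at v4
    refine ⟨v, v1, hc, ?_, ?_, rfl⟩ <;> simp only <;> omega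
  · have e5 := bba_F1 L h 0 u (by omega) h2
    refine ⟨u, by omega, h2, ?_, ?_, rfl⟩ <;> simp only <;> omega

theorem bba_c7 (h : L.Valid) (hl : L.Leg v p) (hp : L.e (v - 1) < p) :
    L.x0 ≤ L.cl v p + 4 * L.w ∧ L.cl v p < L.x0 ∧ L.A ≤ L.cl v p := by
  obtain ⟨v1, v2, v3, v4⟩ := hl
  have hw := h.w1
  have hA := bba_F4 L h (v - 1) (by omega)
  have hG := bba_G4 L h v v1
  unfold BD.cl
  split_ifs with hc
  · have := bba_F4 L h v hc
    omega
  · omega

end windows

section phases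

variable {N : ℕ} {L : BD} {v p : ℕ}

/-- the count over the last stretch of a count identity -/
theorem bba_pat_u {η : Cfg N} (hη : η ∈ (L.Pat v p : Set (Cfg N))) (u : ℕ) (h1 : v ≤ u)
    (h2 : u ≤ L.V) : ∀ x, L.g u + L.w ≤ x → x < L.e u → occ η x = true := by
  obtain ⟨a1, a2, a3, a4, a5⟩ := hη
  rcases Nat.eq_or_lt_of_le h1 with heq | hlt
  · subst heq
    exact (a3 h2).1
  · exact (a4 u hlt h2).2.1

/-- the stretch after the cell `u` is empty up to the next landing spot -/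
theorem bba_pat_n {η : Cfg N} (hη : η ∈ (L.Pat v p : Set (Cfg N))) (u : ℕ) (h1 : v ≤ u)
    (h2 : u ≤ L.V) : ∀ x, L.e u ≤ x → x + L.w < L.G (u + 1) → occ η x = false := by
  obtain ⟨a1, a2, a3, a4, a5⟩ := hη
  by_cases h3 : u + 1 ≤ L.V
  · have := (a4 (u + 1) (by omega) h3).1
    rw [bba_G1 L _ h3]
    simpa only [Nat.add_sub_cancel] using this
  · have hu : u = L.V := by omega
    subst hu
    rw [bba_G2 L _ h3]
    exact a5 h1

theorem bba_c8 (h : L.Valid) (hl : L.Leg v p) (hp : L.e (v - 1) < p) :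
    ∀ η ∈ (L.Pat v p : Set (Cfg N)), ∀ q ∈ L.WA v p, cnt η q.1 q.2 = 1 ∧ occ η q.1 = true := by
  obtain ⟨v1, v2, v3, v4⟩ := hl
  have hw := h.w1
  have hA := bba_F4 L h (v - 1) (by omega)
  intro η hη q hq
  have hpu := bba_pat_u hη
  have hpn := bba_pat_n hη
  obtain ⟨a1, a2, a3, a4, a5⟩ := hη
  rw [bba_memWA] at hq
  rcases hq with ⟨hc, rfl⟩ | ⟨u, h1, h2, rfl⟩
  · simp only
    have e1 : occ η (p - 1) = true := a1 (p - 1) (by omega) (by omega)
    refine ⟨?_, e1⟩
    rw [bba_split η (show p - 1 ≤ p - 1 + 1 by omega)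
      (show p - 1 + 1 ≤ L.G v - 2 * L.w by omega), bba_one, if_pos e1,
      bba_empty η (fun x hx1 hx2 => a2 x (by omega) (by omega))]
  · simp only
    have e2 := bba_G3 L h u h2
    have e4 := bba_F3 L h u u (by omega) (le_refl _) h2
    have e1 : occ η (L.e u - 1) = true := hpu u h1 h2 _ (by omega) (by omega)
    refine ⟨?_, e1⟩
    rw [bba_split η (show L.e u - 1 ≤ L.e u - 1 + 1 by omega)
      (show L.e u - 1 + 1 ≤ L.G (u + 1) - 2 * L.w by omega), bba_one, if_pos e1,
      bba_empty η (fun x hx1 hx2 => hpn u h1 h2 x (by omega) (by omega))]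

theorem bba_c9 (h : L.Valid) (hl : L.Leg v p) (hp : L.e (v - 1) < p) :
    ∀ η ξ : Cfg N, η ∈ (L.Pat v p : Set (Cfg N)) → L.Frz (L.WA v p) η ξ →
    (∀ q ∈ L.WA v p, ∀ x, q.1 ≤ x → x + 2 * L.w < q.2 → occ ξ x = false) →
    ξ ∈ (L.PatA v p : Set (Cfg N)) := by
  intro η ξ hη hF hE
  have hc8 := bba_c8 (N := N) h hl hp η hη
  obtain ⟨v1, v2, v3, v4⟩ := hl
  have hw := h.w1
  have hA := bba_F4 L h (v - 1) (by omega)
  have hG := bba_G4 L h v v1
  have hpu := bba_pat_u hη
  have hpn := bba_pat_n hη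
  obtain ⟨a1, a2, a3, a4, a5⟩ := hη
  obtain ⟨f1, f2⟩ := hF
  -- sites outside of the windows
  have out : ∀ x, L.A ≤ x → x < L.x0 → (p - 1 + 4 * L.w < L.G v → x < p - 1 ∨ L.G v - 2 * L.w ≤ x) →
      (∀ u, v ≤ u → u ≤ L.V → x < L.e u - 1 ∨ L.G (u + 1) - 2 * L.w ≤ x) →
      occ ξ x = occ η x := by
    intro x h1 h2 h3 h4
    refine f2 x h1 h2 ?_
    intro q hq
    rw [bba_memWA] at hq
    rcases hq with ⟨hc, rfl⟩ | ⟨u, h5, h6, rfl⟩
    · exact h3 hc
    · exact h4 u h5 h6
  have win : ∀ u, v ≤ u → u ≤ L.V → ∀ x, L.e u - 1 ≤ x → x + 4 * L.w < L.G (u + 1) →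
      occ ξ x = false := by
    intro u h1 h2 x h3 h4
    exact hE (L.e u - 1, L.G (u + 1) - 2 * L.w) ((bba_memWA L v p _).mpr (Or.inr ⟨u, h1, h2, rfl⟩))
      x h3 (by simp only; omega)
  have wcnt : ∀ u, v ≤ u → u ≤ L.V → cnt ξ (L.e u - 1) (L.G (u + 1) - 2 * L.w) = 1 := by
    intro u h1 h2
    have hm := (bba_memWA L v p _).mpr (Or.inr ⟨u, h1, h2, rfl⟩)
    have e1 := f1 _ hm
    have e2 := (hc8 _ hm).1
    simp only at e1 e2
    rw [e1, e2]
  -- orders
  have o1 : ∀ u, v ≤ u → u ≤ L.V → L.G v + 5 * L.w ≤ L.e u := fun u a b => bba_G5 L h v u v1 a b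
  have o2 : ∀ u u', v ≤ u → u < u' → u' ≤ L.V → L.G (u + 1) ≤ L.g u' := by
    intro u u' a b c
    rw [bba_G1 L (u + 1) (by omega)]
    rcases Nat.eq_or_lt_of_le (show u + 1 ≤ u' by omega) with hh | hh
    · rw [hh]
    · have := bba_F5 L h (u + 1) u' (by omega) hh c
      omega
  have o3 : ∀ u u', u ≤ u' → u' ≤ L.V → L.e u ≤ L.e u' := fun u u' a b => bba_F0 L h u u' a b
  -- middle part of a reservoir is unchanged
  have mid : ∀ u, v ≤ u → u ≤ L.V → ∀ x, (v < u → L.g u ≤ x + 2 * L.w) → x + 1 < L.e u →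
      (u = v → p - 1 ≤ x) →
      (u = v → ¬ (p - 1 + 4 * L.w < L.G v ∧ x < L.G v - 2 * L.w)) → occ ξ x = occ η x := by
    intro u h1 h2 x h3 h4 h5 h6
    have e3 := bba_F4 L h u h2
    have e4 := bba_F3 L h u u (by omega) (le_refl _) h2
    have e5 := bba_F1 L h 0 u (by omega) h2
    have e6 := h.e0
    have hAx : L.A ≤ x := by
      rcases Nat.eq_or_lt_of_le h1 with heq | hlt
      · have := h5 heq.symm
        omega
      · have := h3 hlt
        omega
    refine out x hAx (by omega) ?_ ?_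
    · intro hc
      rcases Nat.eq_or_lt_of_le h1 with heq | hlt
      · have := h6 heq.symm
        right
        by_contra hcc
        exact this ⟨hc, by omega⟩
      · have := o2 v u (le_refl _) hlt h2
        have o4 := bba_F5 L h v u v1 hlt h2
        have := h3 hlt
        rw [bba_G1 L v (by omega)]
        right; omega
    · intro u' h1' h2'
      rcases Nat.lt_or_ge u' u with hlt | hge
      · have := o2 u' u h1' hlt h2
        have := h3 (by omega)
        right; omega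
      · have := o3 u u' hge h2'
        left; omega
  have cntu : ∀ u, v ≤ u → u ≤ L.V → ∀ a, (v < u → L.g u ≤ a + 2 * L.w) → a + 1 ≤ L.e u →
      (u = v → p - 1 ≤ a) →
      (u = v → ¬ (p - 1 + 4 * L.w < L.G v ∧ a < L.G v - 2 * L.w)) →
      cnt ξ a (L.e u - 1) = cnt η a (L.e u - 1) := by
    intro u h1 h2 a h3 h4 h5 h6
    refine bba_congr η ξ ?_
    intro x hx1 hx2
    refine mid u h1 h2 x (fun hh => by have := h3 hh; omega) (by omega)
      (fun hh => by have := h5 hh; omega) ?_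
    intro hh hcc
    exact h6 hh ⟨hcc.1, by omega⟩
  have last : ∀ u, v ≤ u → u ≤ L.V → occ ξ (L.e u - 1) = false := by
    intro u h1 h2
    have e2 := bba_G3 L h u h2
    have e4 := bba_F3 L h u u (by omega) (le_refl _) h2
    exact win u h1 h2 _ (le_refl _) (by omega)
  have last' : ∀ u, v ≤ u → u ≤ L.V → occ η (L.e u - 1) = true := by
    intro u h1 h2
    have e4 := bba_F3 L h u u (by omega) (le_refl _) h2
    exact hpu u h1 h2 _ (by omega) (by omega)
  have lastc : ∀ u, v ≤ u → u ≤ L.V → ∀ a, a + 1 ≤ L.e u →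
      cnt ξ a (L.e u) = cnt ξ a (L.e u - 1) ∧ cnt η a (L.e u) = cnt η a (L.e u - 1) + 1 := by
    intro u h1 h2 a h3
    have e1 := bba_split ξ (show a ≤ L.e u - 1 by omega) (show L.e u - 1 ≤ L.e u - 1 + 1 by omega)
    have e2 := bba_split η (show a ≤ L.e u - 1 by omega) (show L.e u - 1 ≤ L.e u - 1 + 1 by omega)
    have e3 := bba_one ξ (L.e u - 1)
    have e4 := bba_one η (L.e u - 1)
    rw [last u h1 h2] at e3
    rw [last' u h1 h2] at e4
    have e5 : L.e u - 1 + 1 = L.e u := by omega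
    rw [e5] at e1 e2 e3 e4
    simp only [Bool.false_eq_true, if_false, if_true] at e3 e4
    omega
  refine ⟨?_, ?_, ?_, ?_, ?_⟩
  · intro x h1 h2
    rw [out x h1 (by omega) (fun _ => Or.inl (by omega)) (fun u h3 h4 => Or.inl (by
      have := o1 u h3 h4
      omega))]
    exact a1 x h1 (by omega)
  · intro x h1 h2
    exact hE (p - 1, L.G v - 2 * L.w) ((bba_memWA L v p _).mpr (Or.inl ⟨by omega, rfl⟩)) x
      (by simp only; omega) (by simp only; omega)
  · intro hv
    have g1 := bba_G1 L v hv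
    have e4 := bba_F3 L h v v v1 (le_refl _) hv
    have e3 := bba_F4 L h v hv
    refine ⟨?_, last v (le_refl _) hv, ?_⟩
    · intro x h1 h2
      rw [mid v (le_refl _) hv x (by omega) h2 (by omega) (fun _ hcc => by omega)]
      exact (a3 hv).1 x h1 (by omega)
    · have c1 := (lastc v (le_refl _) hv (p - 1) (by omega)).1
      have c2 := (lastc v (le_refl _) hv (p - 1) (by omega)).2
      have c3 := (a3 hv).2
      have c4 := bba_split η (show p - 1 ≤ p - 1 + 1 by omega) (show p - 1 + 1 ≤ L.e v by omega)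
      rw [bba_one, if_pos (a1 (p - 1) (by omega) (by omega))] at c4
      have c5 : p - 1 + 1 = p := by omega
      rw [c5] at c4
      have c6 : cnt ξ (p - 1) (L.e v - 1) = cnt η (p - 1) (L.e v - 1) := by
        by_cases hc : p - 1 + 4 * L.w < L.G v
        · have hm := (bba_memWA L v p _).mpr (Or.inl ⟨hc, rfl⟩)
          have d1 := f1 _ hm
          simp only at d1
          rw [bba_split ξ (show p - 1 ≤ L.G v - 2 * L.w by omega)
            (show L.G v - 2 * L.w ≤ L.e v - 1 by omega),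
            bba_split η (show p - 1 ≤ L.G v - 2 * L.w by omega)
            (show L.G v - 2 * L.w ≤ L.e v - 1 by omega), d1,
            cntu v (le_refl _) hv (L.G v - 2 * L.w) (by omega) (by omega) (by omega)
            (fun _ hcc => by omega)]
        · exact cntu v (le_refl _) hv (p - 1) (by omega) (by omega) (fun _ => le_refl _)
            (fun _ hcc => hc hcc.1)
      omega
  · intro u h1 h2
    obtain ⟨k, rfl⟩ : ∃ k, u = k + 1 := ⟨u - 1, by omega⟩
    simp only [Nat.add_sub_cancel]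
    have g1 := bba_G1 L (k + 1) h2
    have e1 := bba_F1 L h k (k + 1) (by omega) h2
    have e4 := bba_F3 L h (k + 1) (k + 1) (by omega) (le_refl _) h2
    have e3 := bba_F4 L h (k + 1) h2
    have e2 := bba_F3 L h k k (by omega) (le_refl _) (by omega)
    refine ⟨?_, ?_, last (k + 1) (by omega) h2, ?_⟩
    · intro x h3 h4
      exact win k (by omega) (by omega) x (by omega) (by omega)
    · intro x h3 h4
      rw [mid (k + 1) (by omega) h2 x (by omega) h4 (by omega) (fun hh => by omega)]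
      exact hpu (k + 1) (by omega) h2 x h3 (by omega)
    · have c1 := (lastc (k + 1) (by omega) h2 (L.e k) (by omega)).1
      have c2 := (lastc (k + 1) (by omega) h2 (L.e k) (by omega)).2
      have c3 := (a4 (k + 1) h1 h2).2.2
      simp only [Nat.add_sub_cancel] at c3
      have c4 := wcnt k (by omega) (by omega)
      rw [g1] at c4
      have c5 := bba_split ξ (show L.e k - 1 ≤ L.e k - 1 + 1 by omega)
        (show L.e k - 1 + 1 ≤ L.g (k + 1) - 2 * L.w by omega)
      rw [bba_one, last k (by omega) (by omega)] at c5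
      have c6 : L.e k - 1 + 1 = L.e k := by omega
      rw [c6] at c5
      simp only [Bool.false_eq_true, if_false] at c5
      have c7 := bba_split ξ (show L.e k ≤ L.g (k + 1) - 2 * L.w by omega)
        (show L.g (k + 1) - 2 * L.w ≤ L.e (k + 1) - 1 by omega)
      have c8 := bba_split η (show L.e k ≤ L.g (k + 1) - 2 * L.w by omega)
        (show L.g (k + 1) - 2 * L.w ≤ L.e (k + 1) - 1 by omega)
      have c9 : cnt η (L.e k) (L.g (k + 1) - 2 * L.w) = 0 := by
        refine bba_empty η ?_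
        intro x hx1 hx2
        exact hpn k (by omega) (by omega) x hx1 (by omega)
      have c10 := cntu (k + 1) (by omega) h2 (L.g (k + 1) - 2 * L.w) (by omega) (by omega)
        (fun hh => by omega) (fun hh => by omega)
      omega
  · intro hv x h1 h2
    have g2 : L.G (L.V + 1) = L.x0 := bba_G2 L (L.V + 1) (by omega)
    exact win L.V hv (le_refl _) x (by omega) (by omega)

theorem bba_c10 (h : L.Valid) (hl : L.Leg v p) :
    ∀ η ∈ (L.PatA v p : Set (Cfg N)), ∀ q ∈ L.WB v,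
    cnt η q.1 q.2 + 1 = q.2 - q.1 ∧ occ η (q.2 - 1) = false := by
  obtain ⟨v1, v2, v3, v4⟩ := hl
  have hw := h.w1
  intro η hη q hq
  obtain ⟨a1, a2, a3, a4, a5⟩ := hη
  rw [bba_memWB] at hq
  obtain ⟨u, h1, h2, rfl⟩ := hq
  simp only
  have e4 := bba_F3 L h u u (by omega) (le_refl _) h2
  have hu : (∀ x, L.g u + L.w ≤ x → x + 1 < L.e u → occ η x = true) ∧
      occ η (L.e u - 1) = false := by
    rcases Nat.eq_or_lt_of_le h1 with heq | hlt
    · subst heq
      exact ⟨(a3 h2).1, (a3 h2).2.1⟩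
    · exact ⟨(a4 u hlt h2).2.1, (a4 u hlt h2).2.2.1⟩
  refine ⟨?_, hu.2⟩
  have e1 := bba_split η (show L.g u + 2 * L.w ≤ L.e u - 1 by omega)
    (show L.e u - 1 ≤ L.e u - 1 + 1 by omega)
  have e2 := bba_one η (L.e u - 1)
  rw [hu.2] at e2
  simp only [Bool.false_eq_true, if_false] at e2
  have e3 : cnt η (L.g u + 2 * L.w) (L.e u - 1) = L.e u - 1 - (L.g u + 2 * L.w) :=
    bba_full η (fun x hx1 hx2 => hu.1 x (by omega) (by omega))
  have e5 : L.e u - 1 + 1 = L.e u := by omega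
  rw [e5] at e1 e2
  omega

theorem bba_c11 (h : L.Valid) (hl : L.Leg v p) (hp : L.e (v - 1) < p) :
    ∀ η ξ : Cfg N, η ∈ (L.PatA v p : Set (Cfg N)) → L.Frz (L.WB v) η ξ →
    (∀ q ∈ L.WB v, ∀ x, q.1 + 2 * L.w ≤ x → x < q.2 → occ ξ x = true) →
    ξ ∈ (L.PatB v p : Set (Cfg N)) := by
  intro η ξ hη hF hE
  obtain ⟨v1, v2, v3, v4⟩ := hl
  have hw := h.w1
  have hA := bba_F4 L h (v - 1) (by omega)
  have hG := bba_G4 L h v v1
  obtain ⟨a1, a2, a3, a4, a5⟩ := hη
  obtain ⟨f1, f2⟩ := hF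
  have out : ∀ x, L.A ≤ x → x < L.x0 →
      (∀ u, v ≤ u → u ≤ L.V → x < L.g u + 2 * L.w ∨ L.e u ≤ x) → occ ξ x = occ η x := by
    intro x h1 h2 h4
    refine f2 x h1 h2 ?_
    intro q hq
    rw [bba_memWB] at hq
    obtain ⟨u, h5, h6, rfl⟩ := hq
    exact h4 u h5 h6
  have win : ∀ u, v ≤ u → u ≤ L.V → ∀ x, L.g u + 4 * L.w ≤ x → x < L.e u → occ ξ x = true := by
    intro u h1 h2 x h3 h4
    exact hE (L.g u + 2 * L.w, L.e u) ((bba_memWB L v _).mpr ⟨u, h1, h2, rfl⟩) x
      (by simp only; omega) h4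
  have wcnt : ∀ u, v ≤ u → u ≤ L.V →
      cnt ξ (L.g u + 2 * L.w) (L.e u) = cnt η (L.g u + 2 * L.w) (L.e u) := by
    intro u h1 h2
    exact f1 _ ((bba_memWB L v _).mpr ⟨u, h1, h2, rfl⟩)
  -- the part of a cell before the window
  have pre : ∀ u, v ≤ u → u ≤ L.V → ∀ x, L.A ≤ x → x < L.g u + 2 * L.w →
      (v < u → L.e (u - 1) ≤ x) → occ ξ x = occ η x := by
    intro u h1 h2 x h0 h3 h4
    have e3 := bba_F4 L h u h2
    have e4 := bba_F3 L h u u (by omega) (le_refl _) h2
    refine out x h0 (by omega) ?_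
    intro u' h1' h2'
    rcases Nat.lt_or_ge u' u with hlt | hge
    · have e5 := bba_F0 L h u' (u - 1) (by omega) (by omega)
      have := h4 (by omega)
      right; omega
    · rcases Nat.eq_or_lt_of_le hge with heq | hlt
      · subst heq
        left; omega
      · have e5 := bba_F5 L h u u' (by omega) hlt h2'
        left; omega
  have ccnt : ∀ u, v ≤ u → u ≤ L.V → ∀ a, L.A ≤ a → a ≤ L.g u + 2 * L.w →
      (v < u → L.e (u - 1) ≤ a) → cnt ξ a (L.e u) = cnt η a (L.e u) := by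
    intro u h1 h2 a h0 h3 h4
    have e4 := bba_F3 L h u u (by omega) (le_refl _) h2
    rw [bba_split ξ h3 (show L.g u + 2 * L.w ≤ L.e u by omega),
      bba_split η h3 (show L.g u + 2 * L.w ≤ L.e u by omega), wcnt u h1 h2,
      bba_congr η ξ (fun x hx1 hx2 => pre u h1 h2 x (by omega) hx2 (fun hh => by
        have := h4 hh
        omega))]
  refine ⟨?_, ?_, ?_, ?_, ?_⟩
  · intro x h1 h2
    rw [out x h1 (by omega) (fun u h3 h4 => Or.inl (by
      by_cases hv : v ≤ L.V
      · rw [bba_G1 L v hv] at v4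
        rcases Nat.eq_or_lt_of_le h3 with heq | hlt
        · subst heq; omega
        · have := bba_F5 L h v u v1 hlt h4
          omega
      · omega))]
    exact a1 x h1 h2
  · intro x h1 h2
    rw [out x (by omega) (by omega) (fun u h3 h4 => Or.inl (by
      by_cases hv : v ≤ L.V
      · rw [bba_G1 L v hv] at h2
        rcases Nat.eq_or_lt_of_le h3 with heq | hlt
        · subst heq; omega
        · have := bba_F5 L h v u v1 hlt h4
          omega
      · omega))]
    exact a2 x h1 h2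
  · intro hv
    refine ⟨win v (le_refl _) hv, ?_⟩
    rw [bba_G1 L v hv] at v4
    rw [ccnt v (le_refl _) hv (p - 1) (by omega) (by omega) (fun hh => by omega)]
    exact (a3 hv).2.2
  · intro u h1 h2
    have e1 := bba_F1 L h (u - 1) u (by omega) h2
    have e3 := bba_F4 L h (u - 1) (by omega)
    have e4 := bba_F4 L h u h2
    have e5 := bba_F3 L h u u (by omega) (le_refl _) h2
    refine ⟨?_, win u (by omega) h2, ?_⟩
    · intro x h3 h4
      rw [pre u (by omega) h2 x (by omega) (by omega) (fun _ => h3)]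
      exact (a4 u h1 h2).1 x h3 h4
    · rw [ccnt u (by omega) h2 (L.e (u - 1)) (by omega) (by omega) (fun _ => le_refl _)]
      exact (a4 u h1 h2).2.2.2
  · intro hv x h1 h2
    have e3 := bba_F4 L h L.V (le_refl _)
    rw [out x (by omega) (by omega) (fun u h3 h4 => Or.inr (by
      have := bba_F0 L h u L.V h4 (le_refl _)
      omega))]
    exact a5 hv x h1 h2

theorem bba_c12 (h : L.Valid) (hl : L.Leg v p) (hp : L.e (v - 1) < p) :
    ∀ η ∈ (L.PatB v p : Set (Cfg N)), ∀ q ∈ L.WC v p, cnt η q.1 q.2 = 4 * L.w := by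
  obtain ⟨v1, v2, v3, v4⟩ := hl
  have hw := h.w1
  intro η hη q hq
  obtain ⟨a1, a2, a3, a4, a5⟩ := hη
  rw [bba_memWC] at hq
  rcases hq with ⟨hc, rfl⟩ | ⟨u, h1, h2, rfl⟩
  · simp only
    have g1 := bba_G1 L v hc
    have e5 := bba_F3 L h v v v1 (le_refl _) hc
    have e1 := bba_split η (show p - 1 ≤ max (p - 1) (L.g v - 4 * L.w) by omega)
      (show max (p - 1) (L.g v - 4 * L.w) ≤ L.e v by omega)
    have e2 := bba_split η (show max (p - 1) (L.g v - 4 * L.w) ≤ L.g v + 4 * L.w by omega)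
      (show L.g v + 4 * L.w ≤ L.e v by omega)
    have e3 : cnt η (p - 1) (max (p - 1) (L.g v - 4 * L.w)) = 0 :=
      bba_empty η (fun x hx1 hx2 => a2 x (by omega) (by omega))
    have e4 : cnt η (L.g v + 4 * L.w) (L.e v) = L.e v - (L.g v + 4 * L.w) :=
      bba_full η (fun x hx1 hx2 => (a3 hc).1 x hx1 hx2)
    have e6 := (a3 hc).2
    omega
  · simp only
    have e0 := bba_F1 L h (u - 1) u (by omega) h2
    have e5 := bba_F3 L h u u (by omega) (le_refl _) h2
    have e1 := bba_split η (show L.e (u - 1) ≤ L.g u - 4 * L.w by omega)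
      (show L.g u - 4 * L.w ≤ L.e u by omega)
    have e2 := bba_split η (show L.g u - 4 * L.w ≤ L.g u + 4 * L.w by omega)
      (show L.g u + 4 * L.w ≤ L.e u by omega)
    have e3 : cnt η (L.e (u - 1)) (L.g u - 4 * L.w) = 0 :=
      bba_empty η (fun x hx1 hx2 => (a4 u h1 h2).1 x hx1 (by omega))
    have e4 : cnt η (L.g u + 4 * L.w) (L.e u) = L.e u - (L.g u + 4 * L.w) :=
      bba_full η (fun x hx1 hx2 => (a4 u h1 h2).2.1 x hx1 hx2)
    have e6 := (a4 u h1 h2).2.2
    omega

/-- total count over the cells after `v` -/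
theorem bba_cells (h : L.Valid) {η : Cfg N} (hv : v ≤ L.V)
    (hc : ∀ u, v < u → u ≤ L.V → cnt η (L.e (u - 1)) (L.e u) = L.e u - L.g u) :
    ∀ k, v + k ≤ L.V →
      cnt η (L.e v) (L.e (v + k)) = ∑ u ∈ Finset.Ico (v + 1) (v + k + 1), (L.e u - L.g u) := by
  intro k
  induction k with
  | zero =>
    intro _
    simp [cnt]
  | succ k ih =>
    intro hk
    have e1 := bba_F0 L h v (v + k) (by omega) (by omega)
    have e2 := bba_F0 L h (v + k) (v + k + 1) (by omega) (by omega)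
    have e3 := hc (v + k + 1) (by omega) (by omega)
    simp only [Nat.add_sub_cancel] at e3
    rw [show v + (k + 1) = v + k + 1 by omega, bba_split η e1 e2, ih (by omega), e3,
      Finset.sum_Ico_succ_top (show v + 1 ≤ v + k + 1 by omega)]

theorem bba_mis (hv : v ≤ L.V) : ∑ u ∈ Finset.Icc v L.V, (L.e u - L.g u) =
    (L.e v - L.g v) + ∑ u ∈ Finset.Ico (v + 1) (L.V + 1), (L.e u - L.g u) := by
  refine Eq.trans ?_ (Finset.sum_eq_sum_Ico_succ_bot (show v < L.V + 1 by omega)
    (fun u => L.e u - L.g u))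
  refine Finset.sum_congr ?_ (fun _ _ => rfl)
  ext x
  rw [Finset.mem_Icc, Finset.mem_Ico]
  omega

theorem bba_mis0 (hv : ¬ v ≤ L.V) : ∑ u ∈ Finset.Icc v L.V, (L.e u - L.g u) = 0 := by
  rw [Finset.Icc_eq_empty_of_lt (by omega), Finset.sum_empty]

theorem bba_c13 (h : L.Valid) (hl : L.Leg v p) (hp : L.e (v - 1) < p) :
    ∀ η ∈ (L.PatB v p : Set (Cfg N)), cnt η L.A (L.cl v p) + 1 = L.mis v p := by
  obtain ⟨v1, v2, v3, v4⟩ := hl
  have hw := h.w1
  have hA := bba_F4 L h (v - 1) (by omega)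
  intro η hη
  obtain ⟨a1, a2, a3, a4, a5⟩ := hη
  have c0 : cnt η L.A (p - 1) = p - 1 - L.A :=
    bba_full η (fun x hx1 hx2 => a1 x hx1 (by omega))
  unfold BD.mis BD.cl
  by_cases hv : v ≤ L.V
  · rw [if_pos hv, bba_mis hv]
    have g1 := bba_G1 L v hv
    have e5 := bba_F3 L h v v v1 (le_refl _) hv
    have e6 := bba_F4 L h L.V (le_refl _)
    have e7 := bba_F0 L h v L.V hv (le_refl _)
    have c1 := bba_cells (v := v) h (η := η) hv (fun u h1 h2 => (a4 u h1 h2).2.2) (L.V - v) (by omega)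
    rw [show v + (L.V - v) = L.V by omega] at c1
    have c2 := bba_split η (show L.A ≤ p - 1 by omega) (show p - 1 ≤ L.x0 - 4 * L.w by omega)
    have c3 := bba_split η (show p - 1 ≤ L.e v by omega) (show L.e v ≤ L.x0 - 4 * L.w by omega)
    have c4 := bba_split η e7 (show L.e L.V ≤ L.x0 - 4 * L.w by omega)
    have c5 : cnt η (L.e L.V) (L.x0 - 4 * L.w) = 0 :=
      bba_empty η (fun x hx1 hx2 => a5 hv x hx1 (by omega))
    have c6 := (a3 hv).2
    omega
  · rw [if_neg hv, bba_mis0 hv]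
    have g2 := bba_G2 L v hv
    have c2 := bba_split η (show L.A ≤ p - 1 by omega)
      (show p - 1 ≤ max (p - 1) (L.x0 - 4 * L.w) by omega)
    have c5 : cnt η (p - 1) (max (p - 1) (L.x0 - 4 * L.w)) = 0 :=
      bba_empty η (fun x hx1 hx2 => a2 x (by omega) (by omega))
    omega

theorem bba_c14 (h : L.Valid) (hl : L.Leg v p) (hp : L.e (v - 1) < p) :
    ∀ (η ξ : Cfg N) (R : ℕ), L.x0 ≤ R → η ∈ (L.PatB v p : Set (Cfg N)) →
    L.Frz (insert (L.cl v p, R) (L.WC v p)) η ξ →
    (∀ q ∈ L.WC v p, ξ ∈ (sorted q.1 (q.2 - 5 * L.w) (q.2 - 3 * L.w) q.2 : Set (Cfg N))) →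
    (∀ x, L.cl v p ≤ x → x + L.w < L.x0 → occ ξ x = false) →
    ξ ∈ (L.Pat v (p - 1) : Set (Cfg N)) := by
  intro η ξ R hR hη hF hS hcl
  have hcl7 := bba_c7 h hl hp
  obtain ⟨v1, v2, v3, v4⟩ := hl
  have hw := h.w1
  have hA := bba_F4 L h (v - 1) (by omega)
  have hG := bba_G4 L h v v1
  obtain ⟨a1, a2, a3, a4, a5⟩ := hη
  obtain ⟨f1, f2⟩ := hF
  have out : ∀ x, L.A ≤ x → x < L.x0 → x < L.cl v p →
      (v ≤ L.V → x < max (p - 1) (L.g v - 4 * L.w) ∨ L.g v + 4 * L.w ≤ x) →
      (∀ u, v < u → u ≤ L.V → x < L.g u - 4 * L.w ∨ L.g u + 4 * L.w ≤ x) →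
      occ ξ x = occ η x := by
    intro x h1 h2 h3 h4 h5
    refine f2 x h1 h2 ?_
    intro q hq
    rw [Finset.mem_insert, bba_memWC] at hq
    rcases hq with rfl | ⟨hc, rfl⟩ | ⟨u, h6, h7, rfl⟩
    · exact Or.inl h3
    · exact h4 hc
    · exact h5 u h6 h7
  have wcnt0 : v ≤ L.V → cnt ξ (max (p - 1) (L.g v - 4 * L.w)) (L.g v + 4 * L.w) =
      cnt η (max (p - 1) (L.g v - 4 * L.w)) (L.g v + 4 * L.w) := by
    intro hc
    exact f1 _ (Finset.mem_insert_of_mem ((bba_memWC L v p _).mpr (Or.inl ⟨hc, rfl⟩)))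
  have wcnt : ∀ u, v < u → u ≤ L.V → cnt ξ (L.g u - 4 * L.w) (L.g u + 4 * L.w) =
      cnt η (L.g u - 4 * L.w) (L.g u + 4 * L.w) := by
    intro u h1 h2
    exact f1 _ (Finset.mem_insert_of_mem ((bba_memWC L v p _).mpr (Or.inr ⟨u, h1, h2, rfl⟩)))
  have srt0 : v ≤ L.V → (∀ x, max (p - 1) (L.g v - 4 * L.w) ≤ x → x + L.w < L.g v →
      occ ξ x = false) ∧ (∀ x, L.g v + L.w ≤ x → x < L.g v + 4 * L.w → occ ξ x = true) := by
    intro hc
    obtain ⟨s1, s2⟩ := hS _ ((bba_memWC L v p _).mpr (Or.inl ⟨hc, rfl⟩))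
    simp only at s1 s2
    exact ⟨fun x h1 h2 => s1 x h1 (by omega), fun x h1 h2 => s2 x (by omega) h2⟩
  have srt : ∀ u, v < u → u ≤ L.V → (∀ x, L.g u ≤ x + 4 * L.w → x + L.w < L.g u →
      occ ξ x = false) ∧ (∀ x, L.g u + L.w ≤ x → x < L.g u + 4 * L.w → occ ξ x = true) := by
    intro u h3 h4
    obtain ⟨s1, s2⟩ := hS _ ((bba_memWC L v p _).mpr (Or.inr ⟨u, h3, h4, rfl⟩))
    simp only at s1 s2
    exact ⟨fun x h1 h2 => s1 x (by omega) (by omega), fun x h1 h2 => s2 x (by omega) h2⟩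
  -- between windows
  have gap : ∀ u, v ≤ u → u ≤ L.V → ∀ x, L.g u + 4 * L.w ≤ x → x < L.e u →
      occ ξ x = occ η x := by
    intro u h1 h2 x h3 h4
    have e3 := bba_F4 L h u h2
    have e4 := bba_F3 L h u u (by omega) (le_refl _) h2
    have e5 := bba_F1 L h 0 u (by omega) h2
    have e6 := h.e0
    refine out x (by omega) (by omega) (by omega) ?_ ?_
    · intro hc
      rcases Nat.eq_or_lt_of_le h1 with heq | hlt
      · subst heq; right; omega
      · have := bba_F5 L h v u v1 hlt h2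
        right; omega
    · intro u' h1' h2'
      rcases lt_trichotomy u' u with hlt | heq | hgt
      · have := bba_F5 L h u' u (by omega) hlt h2
        right; omega
      · subst heq; right; omega
      · have := bba_F1 L h u u' hgt h2'
        left; omega
  have gap2 : ∀ u, v < u → u ≤ L.V → ∀ x, L.e (u - 1) ≤ x → x + 4 * L.w < L.g u →
      occ ξ x = occ η x := by
    intro u h1 h2 x h3 h4
    have e3 := bba_F4 L h u h2
    have e4 := bba_F3 L h u u (by omega) (le_refl _) h2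
    have e5 := bba_F4 L h (u - 1) (by omega)
    refine out x (by omega) (by omega) (by omega) ?_ ?_
    · intro hc
      have := bba_F3 L h v (u - 1) v1 (by omega) (by omega)
      right; omega
    · intro u' h1' h2'
      rcases lt_trichotomy u' u with hlt | heq | hgt
      · have := bba_F3 L h u' (u - 1) (by omega) (by omega) (by omega)
        right; omega
      · subst heq; left; omega
      · have := bba_F5 L h u u' (by omega) hgt h2'
        left; omega
  refine ⟨?_, ?_, ?_, ?_, ?_⟩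
  · intro x h1 h2
    have hcx : x < L.cl v p := by
      unfold BD.cl
      split_ifs with hv
      · have e3 := bba_F4 L h v hv
        have e4 := bba_F3 L h v v v1 (le_refl _) hv
        rw [bba_G1 L v hv] at v4
        omega
      · omega
    rw [out x h1 (by omega) hcx (fun hv => Or.inl (by omega)) (fun u h3 h4 => Or.inl (by
      have := bba_F5 L h v u v1 h3 h4
      rw [bba_G1 L v (by omega)] at v4
      omega))]
    exact a1 x h1 (by omega)
  · intro x h1 h2
    by_cases hv : v ≤ L.V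
    · have g1 := bba_G1 L v hv
      rw [g1] at h2 v4
      have e3 := bba_F4 L h v hv
      have e4 := bba_F3 L h v v v1 (le_refl _) hv
      by_cases hx : max (p - 1) (L.g v - 4 * L.w) ≤ x
      · exact (srt0 hv).1 x hx h2
      · have hcx : x < L.cl v p := by omega
        rw [out x (by omega) (by omega) hcx (fun _ => Or.inl (by omega))
          (fun u h3 h4 => Or.inl (by
            have := bba_F5 L h v u v1 h3 h4
            omega))]
        exact a2 x (by omega) (by rw [g1]; omega)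
    · have g2 := bba_G2 L v hv
      rw [g2] at h2
      by_cases hx : L.cl v p ≤ x
      · exact hcl x hx h2
      · have hcx : L.cl v p = max (p - 1) (L.x0 - 4 * L.w) := by
          unfold BD.cl
          rw [if_neg hv]
        rw [out x (by omega) (by omega) (by omega) (fun hh => absurd hh hv)
          (fun u h3 h4 => by omega)]
        exact a2 x (by omega) (by rw [g2]; omega)
  · intro hv
    have g1 := bba_G1 L v hv
    have e3 := bba_F4 L h v hv
    have e4 := bba_F3 L h v v v1 (le_refl _) hv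
    refine ⟨?_, ?_⟩
    · intro x h1 h2
      by_cases hx : x < L.g v + 4 * L.w
      · exact (srt0 hv).2 x h1 hx
      · rw [gap v (le_refl _) hv x (by omega) h2]
        exact (a3 hv).1 x (by omega) h2
    · have c1 := bba_split ξ (show p - 1 ≤ max (p - 1) (L.g v - 4 * L.w) by omega)
        (show max (p - 1) (L.g v - 4 * L.w) ≤ L.e v by omega)
      have c2 := bba_split ξ (show max (p - 1) (L.g v - 4 * L.w) ≤ L.g v + 4 * L.w by omega)
        (show L.g v + 4 * L.w ≤ L.e v by omega)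
      have c3 := bba_split η (show p - 1 ≤ max (p - 1) (L.g v - 4 * L.w) by omega)
        (show max (p - 1) (L.g v - 4 * L.w) ≤ L.e v by omega)
      have c4 := bba_split η (show max (p - 1) (L.g v - 4 * L.w) ≤ L.g v + 4 * L.w by omega)
        (show L.g v + 4 * L.w ≤ L.e v by omega)
      have c5 := wcnt0 hv
      have c6 : cnt ξ (L.g v + 4 * L.w) (L.e v) = cnt η (L.g v + 4 * L.w) (L.e v) :=
        bba_congr η ξ (fun x hx1 hx2 => gap v (le_refl _) hv x hx1 hx2)
      have c7 : cnt ξ (p - 1) (max (p - 1) (L.g v - 4 * L.w)) =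
          cnt η (p - 1) (max (p - 1) (L.g v - 4 * L.w)) := by
        refine bba_congr η ξ ?_
        intro x hx1 hx2
        refine out x (by omega) (by omega) (by omega) (fun _ => Or.inl (by omega))
          (fun u h3 h4 => Or.inl (by
            have := bba_F5 L h v u v1 h3 h4
            omega))
      have c8 := (a3 hv).2
      omega
  · intro u h1 h2
    have e0 := bba_F1 L h (u - 1) u (by omega) h2
    have e3 := bba_F4 L h u h2
    have e4 := bba_F3 L h u u (by omega) (le_refl _) h2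
    refine ⟨?_, ?_, ?_⟩
    · intro x h3 h4
      by_cases hx : x + 4 * L.w < L.g u
      · rw [gap2 u h1 h2 x h3 hx]
        exact (a4 u h1 h2).1 x h3 hx
      · exact (srt u h1 h2).1 x (by omega) h4
    · intro x h3 h4
      by_cases hx : x < L.g u + 4 * L.w
      · exact (srt u h1 h2).2 x h3 hx
      · rw [gap u (by omega) h2 x (by omega) h4]
        exact (a4 u h1 h2).2.1 x (by omega) h4
    · have c1 := bba_split ξ (show L.e (u - 1) ≤ L.g u - 4 * L.w by omega)
        (show L.g u - 4 * L.w ≤ L.e u by omega)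
      have c2 := bba_split ξ (show L.g u - 4 * L.w ≤ L.g u + 4 * L.w by omega)
        (show L.g u + 4 * L.w ≤ L.e u by omega)
      have c3 := bba_split η (show L.e (u - 1) ≤ L.g u - 4 * L.w by omega)
        (show L.g u - 4 * L.w ≤ L.e u by omega)
      have c4 := bba_split η (show L.g u - 4 * L.w ≤ L.g u + 4 * L.w by omega)
        (show L.g u + 4 * L.w ≤ L.e u by omega)
      have c5 := wcnt u h1 h2
      have c6 : cnt ξ (L.g u + 4 * L.w) (L.e u) = cnt η (L.g u + 4 * L.w) (L.e u) :=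
        bba_congr η ξ (fun x hx1 hx2 => gap u (by omega) h2 x hx1 hx2)
      have c7 : cnt ξ (L.e (u - 1)) (L.g u - 4 * L.w) = cnt η (L.e (u - 1)) (L.g u - 4 * L.w) :=
        bba_congr η ξ (fun x hx1 hx2 => gap2 u h1 h2 x hx1 (by omega))
      have c8 := (a4 u h1 h2).2.2
      omega
  · intro hv x h1 h2
    by_cases hx : L.cl v p ≤ x
    · exact hcl x hx h2
    · have e3 := bba_F4 L h L.V (le_refl _)
      have hcx : L.cl v p = L.x0 - 4 * L.w := by
        unfold BD.cl
        rw [if_pos hv]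
      rw [out x (by omega) (by omega) (by omega) (fun _ => Or.inr (by
        have := bba_F3 L h v L.V v1 hv (le_refl _)
        omega)) (fun u h3 h4 => Or.inr (by
        have := bba_F3 L h u L.V (by omega) h4 (le_refl _)
        omega))]
      exact a5 hv x h1 (by omega)

theorem bba_c15 (h : L.Valid) (hl : L.Leg v p) :
    p - 1 = L.e (v - 1) → 2 ≤ v →
    (L.Pat v (p - 1) : Set (Cfg N)) = (L.Pat (v - 1) (L.g (v - 1)) : Set (Cfg N)) := by
  intro hpe hv2
  obtain ⟨v1, v2, v3, v4⟩ := hl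
  have hw := h.w1
  rw [hpe]
  obtain ⟨k, rfl⟩ : ∃ k, v = k + 1 := ⟨v - 1, by omega⟩
  simp only [Nat.add_sub_cancel]
  have e4 := bba_F3 L h k k (by omega) (le_refl _) (by omega)
  have e5 := bba_F1 L h 0 k (by omega) (by omega)
  have e6 := h.e0
  ext η
  constructor
  · rintro ⟨a1, a2, a3, a4, a5⟩
    refine ⟨?_, ?_, ?_, ?_, ?_⟩
    · intro x h1 h2
      exact a1 x h1 (by omega)
    · intro x h1 h2
      rw [bba_G1 L k (by omega)] at h2
      omega
    · intro _
      refine ⟨fun x h1 h2 => a1 x (by omega) h2, ?_⟩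
      exact bba_full η (fun x h1 h2 => a1 x (by omega) h2)
    · intro u h1 h2
      rcases Nat.eq_or_lt_of_le (show k + 1 ≤ u by omega) with heq | hlt
      · subst heq
        simp only [Nat.add_sub_cancel]
        refine ⟨?_, (a3 h2).1, (a3 h2).2⟩
        intro x h3 h4
        exact a2 x h3 (by rw [bba_G1 L _ h2]; exact h4)
      · exact a4 u hlt h2
    · intro _ x h1 h2
      by_cases hv : k + 1 ≤ L.V
      · exact a5 hv x h1 h2
      · have hk : k = L.V := by omega
        subst hk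
        exact a2 x h1 (by rw [bba_G2 L _ hv]; exact h2)
  · rintro ⟨a1, a2, a3, a4, a5⟩
    have hkV : k ≤ L.V := by omega
    refine ⟨?_, ?_, ?_, ?_, ?_⟩
    · intro x h1 h2
      by_cases hx : x < L.g k
      · exact a1 x h1 hx
      · exact bba_allfull η (a3 hkV).2 (by omega) h2
    · intro x h1 h2
      by_cases hv : k + 1 ≤ L.V
      · rw [bba_G1 L _ hv] at h2
        have := (a4 (k + 1) (by omega) hv).1
        simp only [Nat.add_sub_cancel] at this
        exact this x h1 h2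
      · rw [bba_G2 L _ hv] at h2
        have hk : k = L.V := by omega
        subst hk
        exact a5 hkV x h1 h2
    · intro hv
      have := (a4 (k + 1) (by omega) hv).2
      simp only [Nat.add_sub_cancel] at this
      exact this
    · intro u h1 h2
      exact a4 u (by omega) h2
    · intro hv x h1 h2
      exact a5 hkV x h1 h2

theorem bba_c16 (h : L.Valid) (hl : L.Leg v p) (hp : L.e (v - 1) < p) :
    ∀ η ∈ (L.Pat v (p - 1) : Set (Cfg N)), p + L.w ≤ L.x0 →
    cnt η L.A (L.x0 - L.w) = L.mis v (p - 1) := by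
  obtain ⟨v1, v2, v3, v4⟩ := hl
  have hw := h.w1
  have hA := bba_F4 L h (v - 1) (by omega)
  intro η hη hpw
  obtain ⟨a1, a2, a3, a4, a5⟩ := hη
  have c0 : cnt η L.A (p - 1) = p - 1 - L.A :=
    bba_full η (fun x hx1 hx2 => a1 x hx1 hx2)
  unfold BD.mis
  by_cases hv : v ≤ L.V
  · rw [bba_mis hv]
    have g1 := bba_G1 L v hv
    have e5 := bba_F3 L h v v v1 (le_refl _) hv
    have e6 := bba_F4 L h L.V (le_refl _)
    have e7 := bba_F0 L h v L.V hv (le_refl _)
    have c1 := bba_cells (v := v) h (η := η) hv (fun u h1 h2 => (a4 u h1 h2).2.2) (L.V - v) (by omega)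
    rw [show v + (L.V - v) = L.V by omega] at c1
    have c2 := bba_split η (show L.A ≤ p - 1 by omega) (show p - 1 ≤ L.x0 - L.w by omega)
    have c3 := bba_split η (show p - 1 ≤ L.e v by omega) (show L.e v ≤ L.x0 - L.w by omega)
    have c4 := bba_split η e7 (show L.e L.V ≤ L.x0 - L.w by omega)
    have c5 : cnt η (L.e L.V) (L.x0 - L.w) = 0 :=
      bba_empty η (fun x hx1 hx2 => a5 hv x hx1 (by omega))
    have c6 := (a3 hv).2
    omega
  · rw [bba_mis0 hv]
    have g2 := bba_G2 L v hv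
    have c2 := bba_split η (show L.A ≤ p - 1 by omega)
      (show p - 1 ≤ L.x0 - L.w by omega)
    have c5 : cnt η (p - 1) (L.x0 - L.w) = 0 :=
      bba_empty η (fun x hx1 hx2 => a2 x (by omega) (by omega))
    omega

end phases

theorem st_BBA : ST_BBA := by
  intro N L v p h hl hp _
  exact ⟨bba_c1 h hl hp, bba_c2 h hl, bba_c3 h hl hp, bba_c4 h hl hp, bba_c5 hl,
    bba_c6 h hl hp, bba_c7 h hl hp, bba_c8 h hl hp, bba_c9 h hl hp, bba_c10 h hl,
    bba_c11 h hl hp, bba_c12 h hl hp, bba_c13 h hl hp, bba_c14 h hl hp, bba_c15 h hl,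
    bba_c16 h hl hp⟩

end Pool.Agent.Helper98.EX
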